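import Mathlib

/-!
Project CQ (MP_b09bc5_pr): finite product measures on the subsets of a finite set `E`, basic facts.
-/

set_option autoImplicit false

namespace Pool.Agent.L5helper98.CQ

open Finset
open scoped Classical

section general
variable {E : Type} [Fintype E]

/-- weight of a subset `ω` of `E` when every element is present with probability `p` -/
noncomputable def Wt (p : ℝ) (ω : Finset E) : ℝ := ∏ e : E, if e ∈ ω then p else 1 - p

/-- expectation -/
noncomputable def Ex (p : ℝ) (f : Finset E → ℝ) : ℝ := ∑ ω : Finset E, Wt p ω * f ω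

/-- probability -/
noncomputable def Pb (p : ℝ) (A : Finset E → Prop) : ℝ := Ex p (fun ω => if A ω then 1 else 0)

/-- `f` depends only on the coordinates in `D` -/
def Dep {β : Type} (f : Finset E → β) (D : Finset E) : Prop :=
  ∀ ω ω' : Finset E, ω ∩ D = ω' ∩ D → f ω = f ω'

/-- `ω` on `D`, `ω'` outside `D` -/
noncomputable def mix (D : Finset E) (ω ω' : Finset E) : Finset E := (ω ∩ D) ∪ (ω' \ D)

omit [Fintype E] in
lemma mem_mix (D ω ω' : Finset E) (e : E) :
    e ∈ mix D ω ω' ↔ (e ∈ D ∧ e ∈ ω) ∨ (e ∉ D ∧ e ∈ ω') := by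
  unfold mix
  simp only [mem_union, mem_inter, mem_sdiff]
  tauto

lemma Wt_nonneg {p : ℝ} (h0 : 0 ≤ p) (h1 : p ≤ 1) (ω : Finset E) : 0 ≤ Wt p ω := by
  unfold Wt
  apply Finset.prod_nonneg
  intro e _
  split_ifs
  · exact h0
  · linarith

/-- expectation of a product over the coordinates -/
lemma Ex_prod (p : ℝ) (a b : E → ℝ) :
    Ex p (fun ω => ∏ e : E, if e ∈ ω then a e else b e) = ∏ e : E, (p * a e + (1 - p) * b e) := by
  rw [Finset.prod_add, Finset.powerset_univ]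
  unfold Ex Wt
  apply Finset.sum_congr rfl
  intro T _
  rw [← Finset.prod_mul_distrib]
  have h : ∀ e : E, ((if e ∈ T then p else 1 - p) * if e ∈ T then a e else b e) =
      if e ∈ T then p * a e else (1 - p) * b e := by
    intro e; split_ifs <;> rfl
  rw [Finset.prod_congr rfl (fun e _ => h e), Finset.prod_ite]
  congr 1
  · apply Finset.prod_congr _ fun _ _ => rfl
    ext x; simp
  · apply Finset.prod_congr _ fun _ _ => rfl
    ext x; simp

lemma Ex_const (p c : ℝ) : Ex (E := E) p (fun _ => c) = c := by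
  have h := Ex_prod (E := E) p (fun _ => 1) (fun _ => 1)
  simp only [ite_self, Finset.prod_const_one, mul_one, add_sub_cancel] at h
  unfold Ex at h ⊢
  simp only [mul_one] at h
  rw [← Finset.sum_mul, h, one_mul]

lemma sum_Wt (p : ℝ) : ∑ ω : Finset E, Wt p ω = 1 := by
  have := Ex_const (E := E) p 1
  unfold Ex at this
  simpa using this

lemma Ex_mono {p : ℝ} (h0 : 0 ≤ p) (h1 : p ≤ 1) {f g : Finset E → ℝ} (h : ∀ ω, f ω ≤ g ω) :
    Ex p f ≤ Ex p g :=
  Finset.sum_le_sum fun ω _ => mul_le_mul_of_nonneg_left (h ω) (Wt_nonneg h0 h1 ω)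

lemma Ex_nonneg {p : ℝ} (h0 : 0 ≤ p) (h1 : p ≤ 1) {f : Finset E → ℝ} (h : ∀ ω, 0 ≤ f ω) :
    0 ≤ Ex p f :=
  Finset.sum_nonneg fun ω _ => mul_nonneg (Wt_nonneg h0 h1 ω) (h ω)

lemma Ex_add (p : ℝ) (f g : Finset E → ℝ) : Ex p (fun ω => f ω + g ω) = Ex p f + Ex p g := by
  unfold Ex
  rw [← Finset.sum_add_distrib]
  exact Finset.sum_congr rfl fun _ _ => by ring

lemma Ex_sub (p : ℝ) (f g : Finset E → ℝ) : Ex p (fun ω => f ω - g ω) = Ex p f - Ex p g := by
  unfold Ex
  rw [← Finset.sum_sub_distrib]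
  exact Finset.sum_congr rfl fun _ _ => by ring

lemma Ex_const_mul (p c : ℝ) (f : Finset E → ℝ) : Ex p (fun ω => c * f ω) = c * Ex p f := by
  unfold Ex
  rw [Finset.mul_sum]
  exact Finset.sum_congr rfl fun _ _ => by ring

lemma Ex_mul_const (p c : ℝ) (f : Finset E → ℝ) : Ex p (fun ω => f ω * c) = Ex p f * c := by
  unfold Ex
  rw [Finset.sum_mul]
  exact Finset.sum_congr rfl fun _ _ => by ring

lemma Ex_sum (p : ℝ) {ι : Type*} (s : Finset ι) (f : ι → Finset E → ℝ) :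
    Ex p (fun ω => ∑ j ∈ s, f j ω) = ∑ j ∈ s, Ex p (f j) := by
  unfold Ex
  rw [Finset.sum_comm]
  exact Finset.sum_congr rfl fun _ _ => by rw [Finset.mul_sum]

lemma Pb_nonneg {p : ℝ} (h0 : 0 ≤ p) (h1 : p ≤ 1) (A : Finset E → Prop) : 0 ≤ Pb p A :=
  Ex_nonneg h0 h1 fun _ => by split_ifs <;> norm_num

lemma Pb_mono {p : ℝ} (h0 : 0 ≤ p) (h1 : p ≤ 1) {A B : Finset E → Prop} (h : ∀ ω, A ω → B ω) :
    Pb p A ≤ Pb p B :=
  Ex_mono h0 h1 fun ω => by
    by_cases hA : A ω
    · simp [hA, h ω hA]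
    · simp only [hA, if_false]; split_ifs <;> norm_num

lemma Pb_le_one {p : ℝ} (h0 : 0 ≤ p) (h1 : p ≤ 1) (A : Finset E → Prop) : Pb p A ≤ 1 := by
  calc Pb p A ≤ Ex p (fun _ => 1) := Ex_mono h0 h1 fun ω => by split_ifs <;> norm_num
    _ = 1 := Ex_const p 1

lemma Pb_not (p : ℝ) (A : Finset E → Prop) : Pb p (fun ω => ¬ A ω) = 1 - Pb p A := by
  have h : Pb p (fun ω => ¬ A ω) = Ex p (fun ω => 1 - (if A ω then 1 else 0)) := by
    unfold Pb
    congr 1
    funext ω
    by_cases hA : A ω <;> simp [hA]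
  rw [h, Ex_sub, Ex_const]
  rfl

lemma Pb_or {p : ℝ} (h0 : 0 ≤ p) (h1 : p ≤ 1) (A B : Finset E → Prop) :
    Pb p (fun ω => A ω ∨ B ω) ≤ Pb p A + Pb p B := by
  unfold Pb
  rw [← Ex_add]
  apply Ex_mono h0 h1
  intro ω
  by_cases hA : A ω <;> by_cases hB : B ω <;> simp [hA, hB]

/-- union bound -/
lemma Pb_exists_mem {p : ℝ} (h0 : 0 ≤ p) (h1 : p ≤ 1) {ι : Type*} (s : Finset ι)
    (A : ι → Finset E → Prop) :
    Pb p (fun ω => ∃ i ∈ s, A i ω) ≤ ∑ i ∈ s, Pb p (A i) := by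
  unfold Pb
  rw [← Ex_sum]
  apply Ex_mono h0 h1
  intro ω
  have hnn : ∀ i ∈ s, (0 : ℝ) ≤ (if A i ω then 1 else 0) := fun i _ => by split_ifs <;> norm_num
  by_cases h : ∃ i ∈ s, A i ω
  · obtain ⟨i, hi, hA⟩ := h
    rw [if_pos ⟨i, hi, hA⟩]
    have := Finset.single_le_sum hnn hi
    rwa [if_pos hA] at this
  · rw [if_neg h]
    exact Finset.sum_nonneg hnn

/-- Markov's inequality -/
lemma markov {p : ℝ} (h0 : 0 ≤ p) (h1 : p ≤ 1) (f : Finset E → ℝ) (hf : ∀ ω, 0 ≤ f ω) (a : ℝ)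
    (ha : 0 < a) : Pb p (fun ω => a ≤ f ω) ≤ Ex p f / a := by
  rw [le_div_iff₀ ha]
  unfold Pb
  rw [← Ex_mul_const]
  apply Ex_mono h0 h1
  intro ω
  split_ifs with h
  · simpa using h
  · simpa using hf ω

/-- the pairs `(ω, ω')` and `(mix D ω ω', mix D ω' ω)` have the same law -/
lemma Wt_mix (p : ℝ) (D ω ω' : Finset E) :
    Wt p (mix D ω ω') * Wt p (mix D ω' ω) = Wt p ω * Wt p ω' := by
  unfold Wt
  rw [← Finset.prod_mul_distrib, ← Finset.prod_mul_distrib]
  apply Finset.prod_congr rfl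
  intro e _
  simp only [mem_mix]
  by_cases hD : e ∈ D <;> by_cases h1 : e ∈ ω <;> by_cases h2 : e ∈ ω' <;>
    simp [hD, h1, h2, mul_comm]

lemma mix_mix (D ω ω' : Finset E) : mix D (mix D ω ω') (mix D ω' ω) = ω := by
  ext e
  simp only [mem_mix]
  tauto

/-- resampling identity -/
lemma Ex_mix (p : ℝ) (D : Finset E) (f : Finset E → ℝ) :
    Ex p f = Ex p (fun ω' => Ex p (fun ω => f (mix D ω ω'))) := by
  have h1 : Ex p f = ∑ x : Finset E × Finset E, Wt p x.1 * Wt p x.2 * f x.1 := by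
    rw [Fintype.sum_prod_type]
    unfold Ex
    apply Finset.sum_congr rfl
    intro ω _
    calc Wt p ω * f ω = Wt p ω * f ω * ∑ ω' : Finset E, Wt p ω' := by rw [sum_Wt, mul_one]
      _ = _ := by rw [Finset.mul_sum]; exact Finset.sum_congr rfl fun _ _ => by ring
  have h2 : Ex p (fun ω' => Ex p (fun ω => f (mix D ω ω'))) =
      ∑ x : Finset E × Finset E, Wt p x.1 * Wt p x.2 * f (mix D x.1 x.2) := by
    rw [Fintype.sum_prod_type_right]
    unfold Ex
    apply Finset.sum_congr rfl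
    intro ω _
    rw [Finset.mul_sum]
    exact Finset.sum_congr rfl fun _ _ => by ring
  rw [h1, h2]
  refine Finset.sum_bij' (fun x _ => (mix D x.1 x.2, mix D x.2 x.1))
    (fun x _ => (mix D x.1 x.2, mix D x.2 x.1)) (fun _ _ => mem_univ _) (fun _ _ => mem_univ _)
    (fun x _ => ?_) (fun x _ => ?_) (fun x _ => ?_)
  · simp [mix_mix]
  · simp [mix_mix]
  · simp only [mix_mix, Wt_mix]

/-- conditioning on the coordinates outside `D` -/
lemma Ex_le_of_mix {p : ℝ} (h0 : 0 ≤ p) (h1 : p ≤ 1) (D : Finset E) (f g : Finset E → ℝ)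
    (h : ∀ ω', Ex p (fun ω => f (mix D ω ω')) ≤ g ω') : Ex p f ≤ Ex p g := by
  rw [Ex_mix p D f]
  exact Ex_mono h0 h1 h

lemma Pb_le_of_mix {p : ℝ} (h0 : 0 ≤ p) (h1 : p ≤ 1) (D : Finset E) (A : Finset E → Prop) (c : ℝ)
    (h : ∀ ω', Pb p (fun ω => A (mix D ω ω')) ≤ c) : Pb p A ≤ c := by
  have := Ex_le_of_mix h0 h1 D (fun ω => if A ω then (1 : ℝ) else 0) (fun _ => c) h
  rwa [Ex_const] at this

lemma mix_inter (D ω ω' : Finset E) : mix D ω ω' ∩ D = ω ∩ D := by
  ext e; simp only [mem_inter, mem_mix]; tauto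

lemma mix_inter_compl (D ω ω' : Finset E) : mix D ω ω' ∩ Dᶜ = ω' ∩ Dᶜ := by
  ext e; simp only [mem_inter, mem_mix, mem_compl]; tauto

omit [Fintype E] in
lemma Dep.mono {β : Type} {f : Finset E → β} {D D' : Finset E} (h : Dep f D) (hD : D ⊆ D') :
    Dep f D' := by
  intro ω ω' he
  apply h
  ext e
  have := Finset.ext_iff.1 he e
  simp only [mem_inter] at this ⊢
  constructor
  · rintro ⟨h1, h2⟩
    exact ⟨(this.1 ⟨h1, hD h2⟩).1, h2⟩
  · rintro ⟨h1, h2⟩
    exact ⟨(this.2 ⟨h1, hD h2⟩).1, h2⟩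

/-- independence of two functions of disjoint sets of coordinates -/
lemma Ex_mul_of_dep (p : ℝ) (D : Finset E) (f g : Finset E → ℝ) (hf : Dep f D) (hg : Dep g Dᶜ) :
    Ex p (fun ω => f ω * g ω) = Ex p f * Ex p g := by
  rw [Ex_mix p D (fun ω => f ω * g ω)]
  have h : ∀ ω', Ex p (fun ω => f (mix D ω ω') * g (mix D ω ω')) = Ex p f * g ω' := by
    intro ω'
    rw [← Ex_mul_const]
    congr 1
    funext ω
    rw [hf _ ω (mix_inter D ω ω'), hg _ ω' (mix_inter_compl D ω ω')]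
  simp only [h]
  rw [Ex_const_mul]

/-- independence for a product over disjoint blocks -/
lemma Ex_prod_of_dep (p : ℝ) {ι : Type*} (s : Finset ι) (D : ι → Finset E)
    (h : ι → Finset E → ℝ) (hdep : ∀ i ∈ s, Dep (h i) (D i))
    (hdis : ∀ i ∈ s, ∀ j ∈ s, i ≠ j → Disjoint (D i) (D j)) :
    Ex p (fun ω => ∏ i ∈ s, h i ω) = ∏ i ∈ s, Ex p (h i) := by
  induction s using Finset.induction_on with
  | empty => simp [Ex_const]
  | insert a s ha ih =>
    have h1 : (fun ω : Finset E => ∏ i ∈ insert a s, h i ω) =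
        fun ω => h a ω * ∏ i ∈ s, h i ω := by
      funext ω; rw [Finset.prod_insert ha]
    rw [h1, Ex_mul_of_dep p (D a), ih, Finset.prod_insert ha]
    · exact fun i hi => hdep i (mem_insert_of_mem hi)
    · exact fun i hi j hj => hdis i (mem_insert_of_mem hi) j (mem_insert_of_mem hj)
    · exact hdep a (mem_insert_self a s)
    · intro ω ω' he
      apply Finset.prod_congr rfl
      intro i hi
      apply (hdep i (mem_insert_of_mem hi)).mono _ ω ω' he
      intro e he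
      rw [mem_compl]
      intro hea
      have hne : a ≠ i := fun h => ha (h ▸ hi)
      exact Finset.disjoint_left.1 (hdis a (mem_insert_self a s) i (mem_insert_of_mem hi) hne) hea he

/-- probability that all elements of `F` are present -/
lemma Pb_subset (p : ℝ) (F : Finset E) : Pb p (fun ω => F ⊆ ω) = p ^ F.card := by
  have h := Ex_prod p (fun _ : E => (1 : ℝ)) (fun e => if e ∈ F then 0 else 1)
  have h1 : Pb p (fun ω => F ⊆ ω) =
      Ex p (fun ω : Finset E => ∏ e : E, if e ∈ ω then (1 : ℝ) else if e ∈ F then 0 else 1) := by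
    unfold Pb
    congr 1
    funext ω
    symm
    by_cases hF : F ⊆ ω
    · rw [if_pos hF]
      apply Finset.prod_eq_one
      intro e _
      by_cases h1 : e ∈ ω
      · simp [h1]
      · have h2 : e ∉ F := fun h => h1 (hF h)
        simp [h1, h2]
    · rw [if_neg hF]
      obtain ⟨e, he, he2⟩ := Finset.not_subset.1 hF
      apply Finset.prod_eq_zero (mem_univ e)
      simp [he, he2]
  rw [h1, h]
  have h2 : ∀ e : E, p * 1 + (1 - p) * (if e ∈ F then 0 else 1) = if e ∈ F then p else 1 := by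
    intro e; split_ifs <;> ring
  rw [Finset.prod_congr rfl fun e _ => h2 e, Finset.prod_ite]
  simp

/-- probability that all elements of `F` are absent -/
lemma Pb_disjoint (p : ℝ) (F : Finset E) : Pb p (fun ω => Disjoint F ω) = (1 - p) ^ F.card := by
  have h := Ex_prod p (fun e => if e ∈ F then (0 : ℝ) else 1) (fun _ : E => 1)
  have h1 : Pb p (fun ω => Disjoint F ω) =
      Ex p (fun ω : Finset E => ∏ e : E, if e ∈ ω then (if e ∈ F then (0 : ℝ) else 1) else 1) := by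
    unfold Pb
    congr 1
    funext ω
    symm
    by_cases hF : Disjoint F ω
    · rw [if_pos hF]
      apply Finset.prod_eq_one
      intro e _
      by_cases h1 : e ∈ ω
      · have h2 : e ∉ F := fun h => Finset.disjoint_left.1 hF h h1
        simp [h2]
      · simp [h1]
    · rw [if_neg hF]
      obtain ⟨e, he, he2⟩ := Finset.not_disjoint_iff.1 hF
      apply Finset.prod_eq_zero (mem_univ e)
      simp [he, he2]
  rw [h1, h]
  have h2 : ∀ e : E, p * (if e ∈ F then 0 else 1) + (1 - p) * 1 = if e ∈ F then 1 - p else 1 := by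
    intro e; split_ifs <;> ring
  rw [Finset.prod_congr rfl fun e _ => h2 e, Finset.prod_ite]
  simp

end general

section graph
variable {n : ℕ}

/-- sample space of the random graph: sets of unordered pairs (the pairs `{v, v}` are not used) -/
abbrev Om (n : ℕ) : Type := Finset (Sym2 (Fin n))

/-- adjacency -/
def adj (ω : Om n) (u v : Fin n) : Prop := u ≠ v ∧ s(u, v) ∈ ω

lemma adj_comm (ω : Om n) (u v : Fin n) : adj ω u v ↔ adj ω v u := by
  unfold adj
  rw [Sym2.eq_swap, ne_comm]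

/-- the neighbours of `v` in `S` -/
noncomputable def nb (ω : Om n) (v : Fin n) (S : Finset (Fin n)) : Finset (Fin n) :=
  S.filter (fun u => adj ω v u)

lemma mem_nb (ω : Om n) (v : Fin n) (S : Finset (Fin n)) (u : Fin n) :
    u ∈ nb ω v S ↔ u ∈ S ∧ v ≠ u ∧ s(v, u) ∈ ω := by
  unfold nb
  rw [mem_filter]
  rfl

/-- `K` is a clique -/
def cl (ω : Om n) (K : Finset (Fin n)) : Prop := ∀ u ∈ K, ∀ v ∈ K, u ≠ v → s(u, v) ∈ ω

/-- the pairs between `A` and `B` -/
noncomputable def prs (A B : Finset (Fin n)) : Finset (Sym2 (Fin n)) :=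
  (A ×ˢ B).image (fun x => s(x.1, x.2))

/-- the pairs of distinct elements of `K` -/
noncomputable def ins (K : Finset (Fin n)) : Finset (Sym2 (Fin n)) :=
  K.offDiag.image (fun x => s(x.1, x.2))

lemma mem_prs (A B : Finset (Fin n)) (u v : Fin n) :
    s(u, v) ∈ prs A B ↔ (u ∈ A ∧ v ∈ B) ∨ (v ∈ A ∧ u ∈ B) := by
  unfold prs
  simp only [mem_image, mem_product, Prod.exists, Sym2.eq_iff]
  constructor
  · rintro ⟨a, b, ⟨ha, hb⟩, (⟨rfl, rfl⟩ | ⟨rfl, rfl⟩)⟩
    · exact Or.inl ⟨ha, hb⟩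
    · exact Or.inr ⟨ha, hb⟩
  · rintro (⟨ha, hb⟩ | ⟨ha, hb⟩)
    · exact ⟨u, v, ⟨ha, hb⟩, Or.inl ⟨rfl, rfl⟩⟩
    · exact ⟨v, u, ⟨ha, hb⟩, Or.inr ⟨rfl, rfl⟩⟩

lemma mem_ins (K : Finset (Fin n)) (u v : Fin n) :
    s(u, v) ∈ ins K ↔ u ∈ K ∧ v ∈ K ∧ u ≠ v := by
  unfold ins
  simp only [mem_image, mem_offDiag, Prod.exists, Sym2.eq_iff]
  constructor
  · rintro ⟨a, b, ⟨ha, hb, hab⟩, (⟨rfl, rfl⟩ | ⟨rfl, rfl⟩)⟩
    · exact ⟨ha, hb, hab⟩
    · exact ⟨hb, ha, hab.symm⟩
  · rintro ⟨ha, hb, hab⟩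
    exact ⟨u, v, ⟨ha, hb, hab⟩, Or.inl ⟨rfl, rfl⟩⟩

lemma card_ins (K : Finset (Fin n)) : (ins K).card = K.card.choose 2 := by
  unfold ins
  exact Sym2.card_image_offDiag K

lemma cl_iff (ω : Om n) (K : Finset (Fin n)) : cl ω K ↔ ins K ⊆ ω := by
  constructor
  · intro h e he
    induction e using Sym2.inductionOn with
    | hf u v =>
      rw [mem_ins] at he
      exact h u he.1 v he.2.1 he.2.2
  · intro h u hu v hv huv
    exact h ((mem_ins K u v).2 ⟨hu, hv, huv⟩)

lemma Pb_cl (p : ℝ) (K : Finset (Fin n)) : Pb p (fun ω : Om n => cl ω K) = p ^ (K.card.choose 2) := by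
  simp only [cl_iff, Pb_subset, card_ins]

/-- the pairs `{v, u}`, `u ∈ S` -/
noncomputable def star (v : Fin n) (S : Finset (Fin n)) : Finset (Sym2 (Fin n)) :=
  S.image (fun u => s(v, u))

lemma mem_star (v : Fin n) (S : Finset (Fin n)) (e : Sym2 (Fin n)) :
    e ∈ star v S ↔ ∃ u ∈ S, s(v, u) = e := by
  unfold star; simp

lemma card_star (v : Fin n) (S : Finset (Fin n)) : (star v S).card = S.card := by
  unfold star
  apply Finset.card_image_of_injective
  intro a b h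
  rcases Sym2.eq_iff.1 h with ⟨_, h⟩ | ⟨h1, h2⟩
  · exact h
  · exact h2.trans h1

/-- the stars at distinct vertices outside `S` are disjoint -/
lemma star_disjoint (v w : Fin n) (S : Finset (Fin n)) (hv : v ∉ S) (hvw : v ≠ w) :
    Disjoint (star v S) (star w S) := by
  rw [Finset.disjoint_left]
  intro e he he'
  rw [mem_star] at he he'
  obtain ⟨u, hu, rfl⟩ := he
  obtain ⟨u', hu', h⟩ := he'
  rw [Sym2.eq_iff] at h
  rcases h with ⟨h1, _⟩ | ⟨_, h2⟩
  · exact hvw h1.symm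
  · exact hv (h2 ▸ hu')

/-- `nb ω v S` depends only on the star of `v` -/
lemma Dep_nb (v : Fin n) (S : Finset (Fin n)) : Dep (fun ω : Om n => nb ω v S) (star v S) := by
  intro ω ω' h
  ext u
  simp only [mem_nb]
  have := Finset.ext_iff.1 h s(v, u)
  simp only [mem_inter, mem_star] at this
  constructor
  · rintro ⟨hu, hvu, h1⟩
    exact ⟨hu, hvu, (this.1 ⟨h1, u, hu, rfl⟩).1⟩
  · rintro ⟨hu, hvu, h1⟩
    exact ⟨hu, hvu, (this.2 ⟨h1, u, hu, rfl⟩).1⟩

/-- probability that all vertices of `K` are neighbours of `v` -/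
lemma Pb_subset_nb (p : ℝ) (v : Fin n) (S K : Finset (Fin n)) (hK : K ⊆ S) (hv : v ∉ K) :
    Pb p (fun ω : Om n => K ⊆ nb ω v S) = p ^ K.card := by
  rw [← card_star v K, ← Pb_subset]
  congr 1
  funext ω
  apply propext
  constructor
  · intro h e he
    obtain ⟨u, hu, rfl⟩ := (mem_star v K e).1 he
    exact ((mem_nb ω v S u).1 (h hu)).2.2
  · intro h u hu
    rw [mem_nb]
    refine ⟨hK hu, fun hvu => hv (hvu ▸ hu), h ((mem_star v K _).2 ⟨u, hu, rfl⟩)⟩

/-- probability that no vertex of `K` is a neighbour of `v` -/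
lemma Pb_disjoint_nb (p : ℝ) (v : Fin n) (K : Finset (Fin n)) (hv : v ∉ K) :
    Pb p (fun ω : Om n => ∀ u ∈ K, ¬ adj ω v u) = (1 - p) ^ K.card := by
  rw [← card_star v K, ← Pb_disjoint]
  congr 1
  funext ω
  apply propext
  constructor
  · intro h
    rw [Finset.disjoint_left]
    intro e he he'
    obtain ⟨u, hu, rfl⟩ := (mem_star v K e).1 he
    exact h u hu ⟨fun hvu => hv (hvu ▸ hu), he'⟩
  · intro h u hu ha
    exact Finset.disjoint_left.1 h ((mem_star v K _).2 ⟨u, hu, rfl⟩) ha.2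

end graph

end Pool.Agent.L5helper98.CQ
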