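import Mathlib

/-!
Public definitions for the result on the clique chromatic number of `G(n,p)` (MP_b09bc5_pr).
-/

set_option autoImplicit false

namespace Pool.Agent.L5helper98.CQ

open Finset
open scoped Classical

/-- `c` is a clique colouring of `G`: no inclusion-maximal clique with at least two vertices is
monochromatic -/
def IsCliqueColouring {V C : Type} (G : SimpleGraph V) (c : V → C) : Prop :=
  ∀ K : Set V, Maximal G.IsClique K → K.Nontrivial → ¬ ∃ a : C, ∀ v ∈ K, c v = a

/-- the clique chromatic number of a finite graph: the least number of colours in a clique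
colouring -/
noncomputable def cliqueChromaticNumber {V : Type} (G : SimpleGraph V) : ℕ :=
  sInf {k : ℕ | ∃ c : V → Fin k, IsCliqueColouring G c}

/-- probability that the binomial random graph `G(n,p)` on the vertex set `Fin n` has the property
`A`: a graph with `e` edges has the weight `p^e (1-p)^(n(n-1)/2 - e)` -/
noncomputable def gnp (n : ℕ) (p : ℝ) (A : SimpleGraph (Fin n) → Prop) : ℝ :=
  ∑ G : SimpleGraph (Fin n),
    if A G then p ^ G.edgeSet.ncard * (1 - p) ^ (n.choose 2 - G.edgeSet.ncard) else 0

/-- the infimum over all integers `r ≥ 2` of `(r/2) log(1/p) + n p^r / (r-1)` -/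
noncomputable def logSize (n : ℕ) (p : ℝ) : ℝ :=
  ⨅ r : {r : ℕ // 2 ≤ r}, ((r.1 : ℝ) / 2 * Real.log (1 / p) + n * p ^ r.1 / ((r.1 : ℝ) - 1))

/-- the asymptotic value of the clique chromatic number -/
noncomputable def cliqueValue (n : ℕ) (p : ℝ) : ℝ := (Real.log (n * p) - logSize n p) / p

end Pool.Agent.L5helper98.CQ
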