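import Pool.Agent.L5helper98.CQ.Stmts
import Pool.Agent.L5helper98.CQ.Defs

set_option autoImplicit false

namespace Pool.Agent.L5helper98.CQ

open Finset Filter Topology
open scoped Classical

/-- the graph of `ω` -/
noncomputable def gr {n : ℕ} (ω : Om n) : SimpleGraph (Fin n) :=
  SimpleGraph.fromEdgeSet (↑ω : Set (Sym2 (Fin n)))

lemma gr_adj {n : ℕ} (ω : Om n) (u v : Fin n) : (gr ω).Adj u v ↔ adj ω u v := by
  unfold gr adj
  rw [SimpleGraph.fromEdgeSet_adj]
  constructor
  · rintro ⟨h1, h2⟩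
    exact ⟨h2, by simpa using h1⟩
  · rintro ⟨h1, h2⟩
    exact ⟨by simpa using h2, h1⟩

lemma gr_eq_iff {n : ℕ} (ω : Om n) (G : SimpleGraph (Fin n)) :
    gr ω = G ↔ ∀ e : Sym2 (Fin n), ¬ e.IsDiag → (e ∈ ω ↔ e ∈ G.edgeSet) := by
  constructor
  · rintro rfl e he
    induction e using Sym2.inductionOn with
    | hf u v =>
      rw [SimpleGraph.mem_edgeSet, gr_adj]
      unfold adj
      have : u ≠ v := by simpa using he
      tauto
  · intro h
    ext u v
    rw [gr_adj]
    unfold adj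
    by_cases huv : u = v
    · subst huv; simp
    · have := h s(u, v) (by simpa using huv)
      rw [SimpleGraph.mem_edgeSet] at this
      rw [this]
      constructor
      · exact fun h => h.2
      · exact fun h => ⟨huv, h⟩

lemma Pb_gr_eq {n : ℕ} (p : ℝ) (G : SimpleGraph (Fin n)) :
    Pb p (fun ω : Om n => gr ω = G) =
      p ^ G.edgeSet.ncard * (1 - p) ^ (n.choose 2 - G.edgeSet.ncard) := by
  obtain ⟨a, ha⟩ : ∃ a : Sym2 (Fin n) → ℝ, ∀ e, a e =
      if (¬ e.IsDiag ∧ e ∉ G.edgeSet) then (0 : ℝ) else 1 := ⟨_, fun _ => rfl⟩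
  obtain ⟨b, hb⟩ : ∃ b : Sym2 (Fin n) → ℝ, ∀ e, b e =
      if e ∈ G.edgeSet then (0 : ℝ) else 1 := ⟨_, fun _ => rfl⟩
  have h := Ex_prod p a b
  have h1 : Pb p (fun ω : Om n => gr ω = G) = Ex p (fun ω : Om n => ∏ e : Sym2 (Fin n),
      @ite ℝ (e ∈ ω) (Classical.propDecidable _) (a e) (b e)) := by
    unfold Pb
    congr 1
    funext ω
    symm
    by_cases hG : gr ω = G
    · rw [if_pos hG]
      apply Finset.prod_eq_one
      intro e _
      have h2 := (gr_eq_iff ω G).1 hG e
      by_cases hd : e.IsDiag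
      · have h3 : e ∉ G.edgeSet := fun h => G.not_isDiag_of_mem_edgeSet h hd
        simp [hd, h3, ha, hb]
      · by_cases h3 : e ∈ G.edgeSet
        · have h4 : e ∈ ω := (h2 hd).2 h3
          simp [h3, h4, ha]
        · have h4 : e ∉ ω := fun h => h3 ((h2 hd).1 h)
          simp [h3, h4, hb]
    · rw [if_neg hG]
      rw [gr_eq_iff] at hG
      push Not at hG
      obtain ⟨e, hd, he⟩ := hG
      apply Finset.prod_eq_zero (mem_univ e)
      rcases he with ⟨h1, h2⟩ | ⟨h1, h2⟩
      · simp [h1, h2, hd, ha]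
      · simp [h1, h2, hb]
  rw [h1]
  refine (Eq.trans (by congr!) h).trans ?_
  have h2 : ∀ e : Sym2 (Fin n), (p * a e + (1 - p) * b e) =
      (if e ∈ G.edgeSet then p else 1) * (if (¬ e.IsDiag ∧ e ∉ G.edgeSet) then 1 - p else 1) := by
    intro e
    rw [ha, hb]
    by_cases h3 : e ∈ G.edgeSet
    · simp [h3]
    · by_cases hd : e.IsDiag <;> simp [h3, hd]
  rw [Finset.prod_congr rfl fun e _ => h2 e, Finset.prod_mul_distrib]
  have h3 : (∏ e : Sym2 (Fin n), if e ∈ G.edgeSet then p else 1) = p ^ G.edgeSet.ncard := by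
    rw [Finset.prod_ite]
    simp only [prod_const, one_pow, mul_one]
    congr 1
    rw [← Set.ncard_coe_finset]
    congr 1
    ext e; simp
  have h4 : (∏ e : Sym2 (Fin n), if (¬ e.IsDiag ∧ e ∉ G.edgeSet) then 1 - p else 1) =
      (1 - p) ^ (n.choose 2 - G.edgeSet.ncard) := by
    rw [Finset.prod_ite]
    simp only [prod_const, one_pow, mul_one]
    congr 1
    have h5 : (univ.filter (fun e : Sym2 (Fin n) => ¬ e.IsDiag)).card = n.choose 2 := by
      have := Sym2.card_subtype_not_diag (α := Fin n)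
      rw [Fintype.card_subtype, Fintype.card_fin] at this
      convert this
    have h6 : (univ.filter (fun e : Sym2 (Fin n) => ¬ e.IsDiag ∧ e ∉ G.edgeSet)) =
        (univ.filter (fun e : Sym2 (Fin n) => ¬ e.IsDiag)) \
          (univ.filter (fun e : Sym2 (Fin n) => e ∈ G.edgeSet)) := by
      ext e; simp
    have h7 : (univ.filter (fun e : Sym2 (Fin n) => e ∈ G.edgeSet)).card = G.edgeSet.ncard := by
      rw [← Set.ncard_coe_finset]
      congr 1
      ext e; simp
    rw [h6, Finset.card_sdiff_of_subset, h5, h7]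
    intro e he
    simp only [mem_filter, mem_univ, true_and] at he ⊢
    exact G.not_isDiag_of_mem_edgeSet he
  rw [h3, h4]

lemma gnp_eq {n : ℕ} (p : ℝ) (A : SimpleGraph (Fin n) → Prop) :
    gnp n p A = Pb p (fun ω : Om n => A (gr ω)) := by
  unfold gnp
  have h1 : Pb p (fun ω : Om n => A (gr ω)) =
      Ex p (fun ω : Om n => ∑ G : SimpleGraph (Fin n), if A G then (if gr ω = G then (1 : ℝ) else 0)
        else 0) := by
    unfold Pb
    congr 1
    funext ω
    rw [Finset.sum_eq_single (gr ω)]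
    · simp
    · intro G _ hG
      simp [hG.symm]
    · simp
  rw [h1, Ex_sum]
  apply Finset.sum_congr rfl
  intro G _
  by_cases hA : A G
  · simp only [hA, if_true]
    rw [← Pb_gr_eq]
    rfl
  · simp only [hA, if_false]
    rw [Ex_const]

lemma colorable_iff {n : ℕ} (ω : Om n) (k : ℕ) :
    colorable ω k ↔ ∃ c : Fin n → Fin k, IsCliqueColouring (gr ω) c := by
  constructor
  · rintro ⟨c, hc, h⟩
    refine ⟨fun v => ⟨c v, hc v⟩, ?_⟩
    rintro K ⟨hK, hmax⟩ hnt ⟨a, ha⟩
    have hc1 : cl ω K.toFinset := by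
      intro u hu v hv huv
      rw [Set.mem_toFinset] at hu hv
      exact ((gr_adj ω u v).1 (hK hu hv huv)).2
    have hc2 : 2 ≤ K.toFinset.card := by
      obtain ⟨u, hu, v, hv, huv⟩ := hnt
      exact Finset.one_lt_card.2 ⟨u, by simpa using hu, v, by simpa using hv, huv⟩
    have hc3 : ∀ w, w ∉ K.toFinset → ∃ u ∈ K.toFinset, ¬ adj ω w u := by
      intro w hw
      by_contra hcon
      push Not at hcon
      have hcl : (gr ω).IsClique (insert w K) := by
        rw [SimpleGraph.isClique_insert]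
        refine ⟨hK, fun b hb _ => ?_⟩
        rw [gr_adj]
        exact hcon b (by simpa using hb)
      have := hmax hcl (Set.subset_insert w K) (Set.mem_insert w K)
      exact hw (by simpa using this)
    obtain ⟨u, hu, v, hv, huv⟩ := h K.toFinset hc1 hc2 hc3
    rw [Set.mem_toFinset] at hu hv
    exact huv (congrArg Fin.val ((ha u hu).trans (ha v hv).symm))
  · rintro ⟨c, hc⟩
    refine ⟨fun v => (c v).1, fun v => (c v).2, ?_⟩
    intro K hcl h2 hmax
    by_contra hcon
    push Not at hcon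
    obtain ⟨u, hu, v, hv, huv⟩ := Finset.one_lt_card.1 h2
    refine hc (↑K : Set (Fin n)) ⟨?_, ?_⟩ ⟨u, by simpa using hu, v, by simpa using hv, huv⟩
      ⟨c u, fun w hw => Fin.ext (hcon w (by simpa using hw) u hu)⟩
    · intro a ha b hb hab
      rw [gr_adj]
      exact ⟨hab, hcl a (by simpa using ha) b (by simpa using hb) hab⟩
    · intro K' hK' hsub w hw
      by_contra hwK
      obtain ⟨x, hx, hxw⟩ := hmax w (by simpa using hwK)
      apply hxw
      rw [← gr_adj]
      refine hK' hw (hsub (by simpa using hx)) ?_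
      rintro rfl
      exact hwK (by simpa using hx)

lemma colorable_mono {n : ℕ} (ω : Om n) {k l : ℕ} (hkl : k ≤ l) (h : colorable ω k) :
    colorable ω l := by
  obtain ⟨c, hc, h2⟩ := h
  exact ⟨c, fun v => (hc v).trans_le hkl, h2⟩

lemma colorable_self {n : ℕ} (ω : Om n) : colorable ω n := by
  refine ⟨fun v => v.1, fun v => v.2, ?_⟩
  intro K _ h2 _
  obtain ⟨u, hu, v, hv, huv⟩ := Finset.one_lt_card.1 h2
  exact ⟨u, hu, v, hv, fun h => huv (Fin.ext h)⟩

lemma chi_le_iff {n : ℕ} (ω : Om n) (k : ℕ) :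
    cliqueChromaticNumber (gr ω) ≤ k ↔ colorable ω k := by
  have hset : {k : ℕ | ∃ c : Fin n → Fin k, IsCliqueColouring (gr ω) c} =
      {k : ℕ | colorable ω k} := by
    ext k; exact (colorable_iff ω k).symm
  unfold cliqueChromaticNumber
  rw [hset]
  constructor
  · intro h
    exact colorable_mono ω h (Nat.sInf_mem (s := {k : ℕ | colorable ω k}) ⟨n, colorable_self ω⟩)
  · intro h
    exact Nat.sInf_le h

lemma not_colorable_zero {n : ℕ} (hn : 1 ≤ n) (ω : Om n) : ¬ colorable ω 0 := by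
  rintro ⟨c, hc, _⟩
  exact absurd (hc ⟨0, hn⟩) (Nat.not_lt_zero _)

theorem final (hUp : MainUp) (hLow : MainLow) (ε : ℝ) (hε : 0 < ε) (p : ℕ → ℝ)
    (h1 : Tendsto (fun n : ℕ => p n / (n : ℝ) ^ (-(1 / 3) + ε : ℝ)) atTop atTop)
    (h2 : Tendsto (fun n : ℕ => p n / (n : ℝ) ^ (-ε : ℝ)) atTop (𝓝 0)) (δ : ℝ) (hδ : 0 < δ) :
    Tendsto (fun n : ℕ => gnp n (p n) (fun G =>
      (1 - δ) * cliqueValue n (p n) ≤ (cliqueChromaticNumber G : ℝ) ∧
        (cliqueChromaticNumber G : ℝ) ≤ (1 + δ) * cliqueValue n (p n))) atTop (𝓝 1) := by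
  have hrng : ∀ᶠ n : ℕ in atTop, 1 ≤ n ∧ rng ε n (p n) := by
    filter_upwards [h1.eventually_ge_atTop 1, h2.eventually_lt_const (show (0:ℝ) < 1 by norm_num),
      eventually_ge_atTop 1] with n ha hb hn
    have hn' : (0 : ℝ) < n := by exact_mod_cast hn
    refine ⟨hn, ?_, ?_⟩
    · rwa [le_div_iff₀ (Real.rpow_pos_of_pos hn' _), one_mul] at ha
    · rw [div_lt_iff₀ (Real.rpow_pos_of_pos hn' _), one_mul] at hb
      exact hb.le
  rw [Metric.tendsto_atTop]
  intro η hη
  set δ0 := min (min δ (η / 4)) (1 / 2) with hδ0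
  have hδ0pos : 0 < δ0 := by positivity
  have hδ0δ : δ0 ≤ δ := (min_le_left _ _).trans (min_le_left _ _)
  have hδ0η : δ0 ≤ η / 4 := (min_le_left _ _).trans (min_le_right _ _)
  have hδ0h : δ0 ≤ 1 / 2 := min_le_right _ _
  obtain ⟨n1, hn1⟩ := hUp ε δ0 hε hδ0pos
  obtain ⟨n2, hn2⟩ := hLow ε δ0 hε hδ0pos (by linarith)
  obtain ⟨n3, hn3⟩ := Filter.eventually_atTop.1 hrng
  refine ⟨max n1 (max n2 n3), fun n hn => ?_⟩
  have hn1' := hn1 n ((le_max_left _ _).trans hn) (p n)
    (hn3 n (((le_max_right _ _).trans (le_max_right _ _)).trans hn)).2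
  have hn2' := hn2 n (((le_max_left _ _).trans (le_max_right _ _)).trans hn) (p n)
    (hn3 n (((le_max_right _ _).trans (le_max_right _ _)).trans hn)).2
  obtain ⟨hnpos, hr1, hr2⟩ := hn3 n (((le_max_right _ _).trans (le_max_right _ _)).trans hn)
  have hnR : (0 : ℝ) < n := by exact_mod_cast hnpos
  have hp0 : 0 ≤ p n := (Real.rpow_pos_of_pos hnR _).le.trans hr1
  have hp1 : p n ≤ 1 := hr2.trans (Real.rpow_le_one_of_one_le_of_nonpos
    (by exact_mod_cast hnpos) (by linarith))
  have hval : cliqueValue n (p n) = fv n (p n) := rfl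
  set f := fv n (p n) with hf
  -- positivity of `f`
  have hfpos : 0 < f := by
    by_contra hcon
    push Not at hcon
    have h0 : ⌊(1 + δ0) * f⌋₊ = 0 := by
      apply Nat.floor_of_nonpos
      nlinarith
    rw [h0] at hn1'
    have : Pb (p n) (fun ω : Om n => ¬ colorable ω 0) = 1 := by
      have h3 : (fun ω : Om n => ¬ colorable ω 0) = fun _ => True := by
        funext ω
        exact propext ⟨fun _ => trivial, fun _ => not_colorable_zero hnpos ω⟩
      rw [h3]
      unfold Pb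
      simp only [if_true]
      exact Ex_const _ 1
    rw [this] at hn1'
    linarith
  have hle : gnp n (p n) (fun G =>
      (1 - δ) * cliqueValue n (p n) ≤ (cliqueChromaticNumber G : ℝ) ∧
        (cliqueChromaticNumber G : ℝ) ≤ (1 + δ) * cliqueValue n (p n)) ≤ 1 := by
    rw [gnp_eq]
    exact Pb_le_one hp0 hp1 _
  have hge : 1 - (δ0 + δ0) ≤ gnp n (p n) (fun G =>
      (1 - δ) * cliqueValue n (p n) ≤ (cliqueChromaticNumber G : ℝ) ∧
        (cliqueChromaticNumber G : ℝ) ≤ (1 + δ) * cliqueValue n (p n)) := by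
    rw [gnp_eq]
    have h3 := Pb_not (p n) (fun ω : Om n =>
      (1 - δ) * cliqueValue n (p n) ≤ (cliqueChromaticNumber (gr ω) : ℝ) ∧
        (cliqueChromaticNumber (gr ω) : ℝ) ≤ (1 + δ) * cliqueValue n (p n))
    have h4 : Pb (p n) (fun ω : Om n => ¬ ((1 - δ) * cliqueValue n (p n) ≤
        (cliqueChromaticNumber (gr ω) : ℝ) ∧
        (cliqueChromaticNumber (gr ω) : ℝ) ≤ (1 + δ) * cliqueValue n (p n))) ≤ δ0 + δ0 := by
      refine le_trans (Pb_mono hp0 hp1 (B := fun ω => ¬ colorable ω ⌊(1 + δ0) * f⌋₊ ∨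
        colorable ω ⌊(1 - δ0) * f⌋₊) ?_) ((Pb_or hp0 hp1 _ _).trans (add_le_add hn1' hn2'))
      intro ω hω
      by_contra hcon
      push Not at hcon
      apply hω
      rw [hval]
      constructor
      · have h5 : ⌊(1 - δ0) * f⌋₊ < cliqueChromaticNumber (gr ω) := by
          by_contra h6
          push Not at h6
          exact hcon.2 ((chi_le_iff ω _).1 h6)
        have h6 := Nat.lt_of_floor_lt h5
        have h7 : (1 - δ) * f ≤ (1 - δ0) * f := by nlinarith
        linarith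
      · have h5 := (chi_le_iff ω _).2 hcon.1
        have h6 : ((⌊(1 + δ0) * f⌋₊ : ℕ) : ℝ) ≤ (1 + δ0) * f := Nat.floor_le (by positivity)
        have h7 : (cliqueChromaticNumber (gr ω) : ℝ) ≤ ⌊(1 + δ0) * f⌋₊ := by exact_mod_cast h5
        have h8 : (1 + δ0) * f ≤ (1 + δ) * f := by nlinarith
        linarith
    linarith
  rw [Real.dist_eq, abs_lt]
  constructor <;> linarith

end Pool.Agent.L5helper98.CQ
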