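import Pool.Agent.L5helper98.CQ.Defs

/-! Project CQ: the explicit values of the leading constant (two extra tasks, real analysis only). -/

set_option autoImplicit false

namespace Pool.Agent.L5helper98.CQ

open Filter Topology

/-- Task Const: if `p = n^(-x+o(1))` and `1/x` is not an integer, the leading constant is
`1 - x (1 + ⌈1/x⌉/2)`. (`F r / log n → (r/2) x` for `r > 1/x`, uniformly bounded below by
`(r/2) log(1/p)/log n`; `F r / log n → ∞` for `r < 1/x`; `F r = (r/2) log(1/p) + n p^r/(r-1)`, the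
infimum `logSize` is between the value at `⌈1/x⌉` and ...). -/
def TaskConst : Prop :=
  ∀ (x : ℝ) (p : ℕ → ℝ), 0 < x → (∀ m : ℕ, x * m ≠ 1) → (∀ᶠ n : ℕ in atTop, 0 < p n) →
    Tendsto (fun n : ℕ => Real.log (1 / p n) / Real.log n) atTop (𝓝 x) → x < 1 →
    Tendsto (fun n : ℕ => cliqueValue n (p n) * p n / Real.log n) atTop
      (𝓝 (1 - x * (1 + (⌈1 / x⌉₊ : ℝ) / 2)))

/-- Task Window: if `n p^r / log n → a` (`a ≥ 0` real, `r ≥ 2` an integer), and `log(1/p)/log n → 1/r`,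
the leading constant is `1/2 - 1/r - min (a/(r-1)) (1/(2r))`. (The minimum of `F` is near `F r` or
`F (r+1)`: `F r / log n → 1/2 + a/(r-1)`, `F (r+1)/log n → (r+1)/(2r)`, `F k / log n ≥ ` the latter
minus `o(1)` for `k > r`, `→ ∞` for `k < r`.) -/
def TaskWindow : Prop :=
  ∀ (r : ℕ) (a : ℝ) (p : ℕ → ℝ), 2 ≤ r → 0 ≤ a → (∀ᶠ n : ℕ in atTop, 0 < p n) →
    Tendsto (fun n : ℕ => Real.log (1 / p n) / Real.log n) atTop (𝓝 (1 / r)) →
    Tendsto (fun n : ℕ => (n : ℝ) * p n ^ r / Real.log n) atTop (𝓝 a) →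
    Tendsto (fun n : ℕ => cliqueValue n (p n) * p n / Real.log n) atTop
      (𝓝 (1 / 2 - 1 / r - min (a / ((r : ℝ) - 1)) (1 / (2 * r))))

end Pool.Agent.L5helper98.CQ
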