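import Pool.Agent.L5helper98.CQ.Final
import Pool.Agent.L5helper98.CQ.Stmts2
import Pool.Agent.L5helper11.CQ.Comb
import Pool.Agent.L5helper15.CQ.BadPb
import Pool.Agent.L5helper19.CQ.Mom
import Pool.Agent.L5helper20.CQ.First
import Pool.Agent.L5helper30.CQ.Deg
import Pool.Agent.L5helper34.CQ.CN
import Pool.Agent.L5helper37.CQ.UpDet
import Pool.Agent.L5helper37.CQ.TopLow1
import Pool.Agent.L5helper18.CQ.Jan
import Pool.Agent.L5helper39.CQ.LowRNum
import Pool.Agent.L5helper47.CQ.TopUp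
import Pool.Agent.L5helper61.CQ.Col
import Pool.Agent.L5helper67.CQ.Const
import Pool.Agent.L5helper67.CQ.Window
import Pool.Agent.L5helper79.CQ.Proc
import Pool.Agent.L5helper83.CQ.Chern
import Pool.Agent.L5helper83.CQ.Choose
import Pool.Agent.L5helper84.CQ.UpPb
import Pool.Agent.L5helper84.CQ.UpR

set_option autoImplicit false

namespace Pool.Agent.L5helper98.CQ

open Filter Topology

theorem assembly (hUp : MainUp) (hLow : MainLow) (hConst : TaskConst) (hWin : TaskWindow)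
    (ε : ℝ) (hε : 0 < ε) (p : ℕ → ℝ)
    (h1 : Tendsto (fun n : ℕ => p n / (n : ℝ) ^ (-(1 / 3) + ε : ℝ)) atTop atTop)
    (h2 : Tendsto (fun n : ℕ => p n / (n : ℝ) ^ (-ε : ℝ)) atTop (𝓝 0)) :
    (∀ δ : ℝ, 0 < δ → Tendsto (fun n : ℕ => gnp n (p n) (fun G =>
      (1 - δ) * cliqueValue n (p n) ≤ (cliqueChromaticNumber G : ℝ) ∧
        (cliqueChromaticNumber G : ℝ) ≤ (1 + δ) * cliqueValue n (p n))) atTop (𝓝 1)) ∧
    (∀ x : ℝ, (∀ m : ℕ, x * m ≠ 1) →
      Tendsto (fun n : ℕ => Real.log (1 / p n) / Real.log n) atTop (𝓝 x) →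
      Tendsto (fun n : ℕ => cliqueValue n (p n) * p n / Real.log n) atTop
        (𝓝 (1 - x * (1 + (⌈1 / x⌉₊ : ℝ) / 2)))) ∧
    (∀ (r : ℕ) (a : ℝ), 2 ≤ r → 0 ≤ a →
      Tendsto (fun n : ℕ => Real.log (1 / p n) / Real.log n) atTop (𝓝 (1 / r)) →
      Tendsto (fun n : ℕ => (n : ℝ) * p n ^ r / Real.log n) atTop (𝓝 a) →
      Tendsto (fun n : ℕ => cliqueValue n (p n) * p n / Real.log n) atTop
        (𝓝 (1 / 2 - 1 / r - min (a / ((r : ℝ) - 1)) (1 / (2 * r))))) := by
  have hrng : ∀ᶠ n : ℕ in atTop, 2 ≤ n ∧ rng ε n (p n) := by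
    filter_upwards [h1.eventually_ge_atTop 1, h2.eventually_lt_const (show (0:ℝ) < 1 by norm_num),
      eventually_ge_atTop 2] with n ha hb hn
    have hn' : (0 : ℝ) < n := by
      have : 0 < n := by omega
      exact_mod_cast this
    refine ⟨hn, ?_, ?_⟩
    · rwa [le_div_iff₀ (Real.rpow_pos_of_pos hn' _), one_mul] at ha
    · rw [div_lt_iff₀ (Real.rpow_pos_of_pos hn' _), one_mul] at hb
      exact hb.le
  have hpos : ∀ᶠ n : ℕ in atTop, 0 < p n := by
    filter_upwards [hrng] with n hn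
    have hn' : (0 : ℝ) < n := by
      have : 0 < n := by omega
      exact_mod_cast this
    exact (Real.rpow_pos_of_pos hn' _).trans_le hn.2.1
  refine ⟨fun δ hδ => final hUp hLow ε hε p h1 h2 δ hδ, ?_, ?_⟩
  · intro x hx hlim
    have hge : ∀ᶠ n : ℕ in atTop, ε ≤ Real.log (1 / p n) / Real.log n := by
      filter_upwards [hrng, hpos] with n hn hp
      have hn' : (1 : ℝ) < n := by
        have : 1 < n := by omega
        exact_mod_cast this
      have hl : 0 < Real.log n := Real.log_pos hn'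
      rw [le_div_iff₀ hl, one_div, Real.log_inv]
      have := Real.log_le_log hp hn.2.2
      rw [Real.log_rpow (by linarith)] at this
      linarith
    have hle : ∀ᶠ n : ℕ in atTop, Real.log (1 / p n) / Real.log n ≤ 1 / 3 - ε := by
      filter_upwards [hrng, hpos] with n hn hp
      have hn' : (1 : ℝ) < n := by
        have : 1 < n := by omega
        exact_mod_cast this
      have hl : 0 < Real.log n := Real.log_pos hn'
      rw [div_le_iff₀ hl, one_div, Real.log_inv]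
      have := Real.log_le_log (Real.rpow_pos_of_pos (by linarith) _) hn.2.1
      rw [Real.log_rpow (by linarith)] at this
      linarith
    have hx1 : ε ≤ x := ge_of_tendsto hlim hge
    have hx2 : x ≤ 1 / 3 - ε := le_of_tendsto hlim hle
    exact hConst x p (by linarith) hx hpos hlim (by linarith)
  · intro r a hr ha hlim1 hlim2
    exact hWin r a p hr ha hpos hlim1 hlim2

theorem mainUp : MainUp :=
  Pool.Agent.L5helper47.CQ.taskTopUp Pool.Agent.L5helper20.CQ.taskFirst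
    Pool.Agent.L5helper20.CQ.taskNoCN
    (Pool.Agent.L5helper84.CQ.taskUpPb Pool.Agent.L5helper61.CQ.taskCol
      Pool.Agent.L5helper37.CQ.taskUpDet)
    Pool.Agent.L5helper83.CQ.taskChoose
    (Pool.Agent.L5helper84.CQ.taskUpRNum Pool.Agent.L5helper19.CQ.taskMom)

theorem mainLow : MainLow :=
  Pool.Agent.L5helper37.CQ.mainLow_of Pool.Agent.L5helper34.CQ.taskCN
    Pool.Agent.L5helper83.CQ.taskChern
    Pool.Agent.L5helper83.CQ.taskChoose
    (Pool.Agent.L5helper39.CQ.taskLowRNum Pool.Agent.L5helper30.CQ.taskDeg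
      Pool.Agent.L5helper11.CQ.taskComb
      (Pool.Agent.L5helper15.CQ.taskBadPb Pool.Agent.L5helper79.CQ.taskProc
        Pool.Agent.L5helper18.CQ.taskJan))

theorem main (ε : ℝ) (hε : 0 < ε) (p : ℕ → ℝ)
    (h1 : Tendsto (fun n : ℕ => p n / (n : ℝ) ^ (-(1 / 3) + ε : ℝ)) atTop atTop)
    (h2 : Tendsto (fun n : ℕ => p n / (n : ℝ) ^ (-ε : ℝ)) atTop (𝓝 0)) :
    (∀ δ : ℝ, 0 < δ → Tendsto (fun n : ℕ => gnp n (p n) (fun G =>
      (1 - δ) * cliqueValue n (p n) ≤ (cliqueChromaticNumber G : ℝ) ∧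
        (cliqueChromaticNumber G : ℝ) ≤ (1 + δ) * cliqueValue n (p n))) atTop (𝓝 1)) ∧
    (∀ x : ℝ, (∀ m : ℕ, x * m ≠ 1) →
      Tendsto (fun n : ℕ => Real.log (1 / p n) / Real.log n) atTop (𝓝 x) →
      Tendsto (fun n : ℕ => cliqueValue n (p n) * p n / Real.log n) atTop
        (𝓝 (1 - x * (1 + (⌈1 / x⌉₊ : ℝ) / 2)))) ∧
    (∀ (r : ℕ) (a : ℝ), 2 ≤ r → 0 ≤ a →
      Tendsto (fun n : ℕ => Real.log (1 / p n) / Real.log n) atTop (𝓝 (1 / r)) →
      Tendsto (fun n : ℕ => (n : ℝ) * p n ^ r / Real.log n) atTop (𝓝 a) →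
      Tendsto (fun n : ℕ => cliqueValue n (p n) * p n / Real.log n) atTop
        (𝓝 (1 / 2 - 1 / r - min (a / ((r : ℝ) - 1)) (1 / (2 * r))))) :=
  assembly mainUp mainLow Pool.Agent.L5helper67.CQ.taskConst
    Pool.Agent.L5helper67.CQ.taskWindow ε hε p h1 h2

end Pool.Agent.L5helper98.CQ
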