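import Pool.Agent.L5helper98.CQ.Base

/-!
Project CQ (MP_b09bc5_pr, clique chromatic number of `G(n,p)`): definitions and task statements.
Every task is a `def TaskX : Prop`; prove `theorem taskX : TaskX` in a new file.
-/

set_option autoImplicit false

namespace Pool.Agent.L5helper98.CQ

open Finset
open scoped Classical

/-- `ω` (a graph on `Fin n`) has a clique colouring with the colours `0, ..., k-1` -/
def colorable {n : ℕ} (ω : Om n) (k : ℕ) : Prop :=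
  ∃ c : Fin n → ℕ, (∀ v, c v < k) ∧
    ∀ K : Finset (Fin n), cl ω K → 2 ≤ K.card → (∀ w, w ∉ K → ∃ u ∈ K, ¬ adj ω w u) →
      ∃ u ∈ K, ∃ v ∈ K, c u ≠ c v

/-- `log s_*`, the infimum over `r ≥ 2` of `(r/2) log(1/p) + n p^r / (r-1)` -/
noncomputable def ls (n : ℕ) (p : ℝ) : ℝ :=
  ⨅ r : {r : ℕ // 2 ≤ r}, ((r.1 : ℝ) / 2 * Real.log (1 / p) + n * p ^ r.1 / ((r.1 : ℝ) - 1))

/-- the asymptotic value of the clique chromatic number -/
noncomputable def fv (n : ℕ) (p : ℝ) : ℝ := (Real.log (n * p) - ls n p) / p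

/-- the range of `p` -/
def rng (ε : ℝ) (n : ℕ) (p : ℝ) : Prop :=
  (n : ℝ) ^ (-(1 / 3) + ε : ℝ) ≤ p ∧ p ≤ (n : ℝ) ^ (-ε : ℝ)

/-- the set of common neighbours of the elements of `R` -/
noncomputable def cn {n : ℕ} (ω : Om n) (R : Finset (Fin n)) : Finset (Fin n) :=
  univ.filter (fun w => ∀ v ∈ R, adj ω v w)

/-- the vertices that are adjacent to no element of `T` -/
noncomputable def away {n : ℕ} (ω : Om n) (T : Finset (Fin n)) : Finset (Fin n) :=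
  univ.filter (fun u => ∀ v ∈ T, ¬ adj ω v u)

/-- the cliques with `r` elements in `R` without a common neighbour in `V2` -/
noncomputable def hyp {n : ℕ} (ω : Om n) (r : ℕ) (R V2 : Finset (Fin n)) :
    Finset (Finset (Fin n)) :=
  (powersetCard r R).filter (fun K => cl ω K ∧ ∀ w ∈ V2, ∃ u ∈ K, ¬ adj ω w u)

/-- Task CN (union bound). Union over the sets `R` (at most `n^r`) and the sets `W` of `k` vertices
(`Nat.choose n k ≤ n^k / k!`); `W ⊆ cn ω R` forces `R`, `W` disjoint (`adj` is irreflexive) and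
`prs R W ⊆ ω`, with `(prs R W).card = r * k`; `Pb_subset`. -/
def TaskCN : Prop :=
  ∀ (n r k : ℕ) (p : ℝ), 0 ≤ p → p ≤ 1 →
    Pb p (fun ω : Om n => ∃ R : Finset (Fin n), R.card = r ∧ k ≤ (cn ω R).card)
      ≤ (n : ℝ) ^ r * (((n : ℝ) * p ^ r) ^ k / (k.factorial : ℝ))

/-- Task Chern (lower tail by the exponential moment). Union over `v` (`n^t` maps). For fixed `v`
put `D = univ.image v`; for `u ∉ D` the events `A_u = (∀ i, ¬ adj ω (v i) u)` depend on the disjoint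
blocks `star u D` (`star_disjoint`, `Ex_prod_of_dep`), with probability
`(1-p)^D.card ≥ (1-p)^t` (`Pb_disjoint_nb`). `Markov` for `exp (y - #{u ∉ D | A_u})`, and
`E exp(-1_A) = 1 - (1 - e⁻¹) P(A) ≤ exp(- P(A) / 2)`. -/
def TaskChern : Prop :=
  ∀ (n t : ℕ) (p y : ℝ), 0 ≤ p → p ≤ 1 → t ≤ n →
    Pb p (fun ω : Om n => ∃ v : Fin t → Fin n,
        ((univ.filter (fun u => ∀ i, ¬ adj ω (v i) u)).card : ℝ) ≤ y)
      ≤ (n : ℝ) ^ t * Real.exp (y - ((n : ℝ) - t) * (1 - p) ^ t / 2)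

/-- Task Deg (the total size of the large degrees into `S`). With `d_v = (nb ω v S).card`, for
`v ∉ S` the functions `h_v = (if τ ≤ d_v then θ^d_v else 1)` depend on the disjoint blocks
`star v S`; `h_v ≤ 1 + ∑ K ∈ S.powerset with τ ≤ K.card, (if K ⊆ nb ω v S then θ^K.card else 0)`, so
`E h_v ≤ 1 + ∑_{d ≥ τ} choose s d * (p θ)^d ≤ 1 + ∑_{d ≥ τ} (e s p θ / d)^d ≤ 1 + 2 * (1/2)^τ`
(`choose s d ≤ (e s / d)^d` because `d^d / d! ≤ e^d`); `E ∏ h_v ≤ exp (2 n (1/2)^τ)`; Markov. -/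
def TaskDeg : Prop :=
  ∀ (n : ℕ) (p θ : ℝ) (S : Finset (Fin n)) (τ Y : ℕ), 0 ≤ p → p ≤ 1 → 1 ≤ θ → 1 ≤ τ →
    Real.exp 1 * S.card * p * θ ≤ τ / 2 →
    Pb p (fun ω : Om n => Y ≤ ∑ v ∈ (univ \ S).filter (fun v => τ ≤ (nb ω v S).card),
        (nb ω v S).card)
      ≤ Real.exp (2 * n * (1 / 2 : ℝ) ^ τ) / θ ^ Y

/-- Task Comb (counting, no probability). Let `s = S.card`, `δ1 = δ / (8 C)`-like. `Large` = the
`v ∈ M` with `|N v| ≥ δ1 s` (at most `C / δ1` many). A `u ∈ S` is good if it lies in `N v` for at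
most `r-1` large `v` and for at most `4 C` elements `v ∈ M`: at least `s/2` good `u` (the first
condition fails for at most `choose (C/δ1) r * κ s ≤ s/4` elements `u`, the second for at most `s/4`,
double counting). For good `u` let `v_1, ..., v_k` (`k ≤ r-1`) be the large `v` with `u ∈ N v`; take
`u_2 ∈ (S \ N v_1) \ ⋃ (N v, v ∈ M not large, u ∈ N v)` (at least `δ s - 4 C δ1 s ≥ δ s / 2`
choices), `u_{j+1} ∈ S \ N v_j` (`δ s` choices); (if `k < r-1` replace the missing `N v_j` by `∅`).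
No `N v` with `v ∈ M` contains `{u, u_2, ..., u_r}`. This gives `≥ (s/2)(δ s/2)(δ s)^(r-2)` tuples;
at most `r^2 s^(r-1)` have a repetition; every `r`-set comes from at most `r^r` tuples. (Any `c > 0`
will do.) -/
def TaskComb : Prop :=
  ∀ (r : ℕ) (C δ : ℝ), 2 ≤ r → 0 < C → 0 < δ → δ ≤ 1 →
    ∃ c κ : ℝ, ∃ s0 : ℕ, 0 < c ∧ 0 < κ ∧
      ∀ (n : ℕ) (S M : Finset (Fin n)) (N : Fin n → Finset (Fin n)), s0 ≤ S.card →
        (∀ v ∈ M, N v ⊆ S) → (∀ v ∈ M, δ * S.card ≤ ((S \ N v).card : ℝ)) →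
        ((∑ v ∈ M, (N v).card : ℕ) : ℝ) ≤ C * S.card →
        (∀ R ⊆ M, R.card = r → ((S.filter (fun u => ∀ v ∈ R, u ∈ N v)).card : ℝ) ≤ κ * S.card) →
        c * (S.card : ℝ) ^ r ≤
          (((powersetCard r S).filter (fun K => ∀ v ∈ M, ¬ K ⊆ N v)).card : ℝ)

/-- Task Proc (supermartingale). Order the `v ∉ S` (induction on a finset `B` of vertices outside
`S`, with `Ex_le_of_mix` for the block `star v S`). `𝓕_B = 𝓕.filter (∀ v ∈ B, d_v < τ → ¬ K ⊆ nb)`,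
`Φ(x) = (max x m)^(-lam)`. Claim: `E Φ(|𝓕_{insert v B}|) ≤ E Φ(|𝓕_B|) * exp(p^r ((1-b)^(-lam) - 1)/b)`.
For fixed `𝓕_B`: if `|𝓕_B| < m` then `Φ` does not change. If `|𝓕_B| ≥ m`, the number of removed sets
is `ρ |𝓕_B|` with `ρ |𝓕_B| ≤ choose (τ-1) r ≤ τ^r ≤ b m`, so `0 ≤ ρ ≤ b`, `E ρ ≤ p^r`
(`Pb_subset_nb`) and `(1-ρ)^(-lam) ≤ 1 + ρ ((1-b)^(-lam) - 1)/b` by convexity. Finally
`|𝓕_B| ≤ m` means `Φ = m^(-lam)`; Markov. -/
def TaskProc : Prop :=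
  ∀ (n r τ : ℕ) (p b m lam : ℝ) (S : Finset (Fin n)) (𝓕 : Finset (Finset (Fin n))),
    0 ≤ p → p ≤ 1 → 1 ≤ r → 0 < b → b < 1 → 0 < m → 0 ≤ lam → (τ : ℝ) ^ r ≤ b * m →
    (∀ K ∈ 𝓕, K ⊆ S ∧ K.card = r) → m ≤ 𝓕.card →
    Pb p (fun ω : Om n => ((𝓕.filter (fun K => ∀ v, v ∉ S → (nb ω v S).card < τ →
        ¬ K ⊆ nb ω v S)).card : ℝ) ≤ m)
      ≤ (m / 𝓕.card) ^ lam * Real.exp (n * p ^ r * (((1 - b) ^ (-lam) - 1) / b))

/-- Task Jan (Janson's inequality for cliques from a family `𝓡` of `r`-sets). Use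
`Pool.Agent.H449R3.CHI` (file `Pool/Agent/H449R3/CHIJanson.lean`, a proof of
`Pool.Agent.H452R3.CHI.TaskJanson`) with coordinates `Sym2 (Fin n) ⊕ {K // K ∈ 𝓡}`, the random set
`T` being the COMPLEMENT of `ω` (presence probability `1-p` on the pairs and `1-q` on the extra
coordinates), `F K = ins K ∪ {K}`, thinning probability `q = Λ / μ`, `μ = |𝓡| p^(choose r 2)`
(`Λ ≤ μ` is the case `j = r`). First sum `q μ = Λ`; second sum: `F K`, `F K'` meet (for `K ≠ K'`)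
iff `j = |K ∩ K'| ≥ 2`, the term is `q^2 p^(2 choose r 2 - choose j 2)`, there are at most
`choose r j * s^(r-j)` sets `K'` for each `K` and `j`; total `≤ Λ`. -/
def TaskJan : Prop :=
  ∀ (n r : ℕ) (p Λ : ℝ) (S : Finset (Fin n)) (𝓡 : Finset (Finset (Fin n))),
    0 < p → p ≤ 1 → 2 ≤ r → 0 < Λ → (∀ K ∈ 𝓡, K ⊆ S ∧ K.card = r) →
    (∀ j : ℕ, 2 ≤ j → j ≤ r →
      Λ * 2 ^ r * (S.card : ℝ) ^ (r - j) ≤ 𝓡.card * p ^ (j.choose 2)) →
    Pb p (fun ω : Om n => ∀ K ∈ 𝓡, ¬ cl ω K) ≤ Real.exp (- Λ / 2)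

/-- Task Mom (`k`-th moment of the number of cliques of `hyp ω r R V2` through `v`).
`E X^k = ∑_{(K_1..K_k)} P(all K_l ∈ hyp)`. The clique part depends on the pairs inside `R`, the
other part on the pairs between `V2` and `R` (disjoint; `Ex_mul_of_dep`, `Ex_prod_of_dep` with the
blocks `star w R`, `w ∈ V2`). With `k'` distinct sets among the `K_l`:
`P(cliques) = p^|⋃ ins K_l|`, `P(w sees all of no K_l) ≤ 1 - (k' p^r - k^2 p^(r+1))` (Bonferroni,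
`|K ∪ K'| ≥ r+1`). Then sum over `K_1, ..., K_k` successively: given `K_1..K_{l-1}` with union `W`
(`|W ∪ {v}| ≤ k r`), the sets `K_l` already used contribute at most `k`, a new `K_l` with
`|K_l ∩ W'| = i ≥ 1` (`W' = W ∪ {v}`) adds at least `choose r 2 - choose i 2` new pairs, and there
are at most `(k r)^i |R|^(r-i)` of them. -/
def TaskMom : Prop :=
  ∀ (n r k : ℕ) (p : ℝ) (R V2 : Finset (Fin n)) (v : Fin n), 0 ≤ p → p ≤ 1 → 1 ≤ k → 2 ≤ r →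
    v ∈ R → Disjoint R V2 →
    Ex p (fun ω : Om n => ((((hyp ω r R V2).filter (fun K => v ∈ K)).card : ℝ)) ^ k)
      ≤ Real.exp ((k : ℝ) ^ 2 * V2.card * p ^ (r + 1)) *
        ((k : ℝ) + Real.exp (- (V2.card * p ^ r)) *
          ∑ i ∈ Icc 1 r, ((k : ℝ) * r) ^ i * (R.card : ℝ) ^ (r - i) *
            p ^ (r.choose 2 - i.choose 2)) ^ k

/-- Task Col (iterated random colouring, no random graph). Induction on `j`. For `U ⊆ R` the
average over all `c : Fin n → Fin Q` of the number of monochromatic `e ∈ 𝓗`, `e ⊆ U`, is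
`∑_{e ⊆ U} (1/Q)^(|e|-1) ≤ ∑_{v ∈ U} ∑_{e ∋ v} ... ≤ ρ |U|`; fix a good `c`; let `U'` contain one
vertex of every monochromatic `e ⊆ U`; `|U'| ≤ ρ |U|`; colour `U \ U'` with `c` and go on with `U'`
and new colours. -/
def TaskCol : Prop :=
  ∀ (n : ℕ) (R : Finset (Fin n)) (𝓗 : Finset (Finset (Fin n))) (Q j : ℕ) (ρ : ℝ), 1 ≤ Q → 0 ≤ ρ →
    (∀ e ∈ 𝓗, e.Nonempty ∧ e ⊆ R) →
    (∀ v ∈ R, ∑ e ∈ 𝓗.filter (fun e => v ∈ e), (1 / (Q : ℝ)) ^ (e.card - 1) ≤ ρ) →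
    ρ ^ j * R.card < 1 →
    ∃ c : Fin n → ℕ, (∀ v ∈ R, c v < j * Q) ∧ ∀ e ∈ 𝓗, ∃ u ∈ e, ∃ w ∈ e, c u ≠ c w

/-- Task First (first moments). `P(u ∈ away) ≤ (1-p)^(|T|-1)` (`Pb_disjoint_nb` with `T.erase u`). -/
def TaskFirst : Prop :=
  ∀ (n : ℕ) (p : ℝ) (T : Finset (Fin n)), 0 ≤ p → p ≤ 1 →
    Ex p (fun ω : Om n => ((away ω T).card : ℝ)) ≤ n * (1 - p) ^ (T.card - 1) ∧
    Ex p (fun ω : Om n => ((away ω T ∩ T).card : ℝ)) ≤ T.card * (1 - p) ^ (T.card - 1)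

/-- Task NoCN. Union bound over the sets `K`; for fixed `K` the events `(∃ u ∈ K, ¬ adj ω w u)`,
`w ∉ K`, are independent (blocks `star w K`) with probability `1 - p^j`. -/
def TaskNoCN : Prop :=
  ∀ (n j : ℕ) (p : ℝ), 0 ≤ p → p ≤ 1 → j ≤ n →
    Pb p (fun ω : Om n => ∃ K : Finset (Fin n), K.card = j ∧ ∀ w, w ∉ K → ∃ u ∈ K, ¬ adj ω w u)
      ≤ (n : ℝ) ^ j * Real.exp (- (((n : ℝ) - j) * p ^ j))

/-- Task UpDet (deterministic). Colour `u ∉ away ω T` by the least index `j` with `v_j ~ u`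
(`T = {v_0, ..., v_{t-1}}`), the elements of `away ω T ∩ T` by private colours, and the others
(`R1`) by `t + |away ∩ T| + c u`. Monochromatic maximal cliques with at least 2 elements do not
exist: in a class of the first type adding `v_j` gives a larger clique (`v_j` itself is not in its
class); in the third type: a maximal clique `K ⊆ R1` with `|K| < r` is contained in a set with
`r-1` elements, which has a common neighbour; `|K| = r`: hypothesis; `|K| > r`: take a subset. -/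
def TaskUpDet : Prop :=
  ∀ (n r q : ℕ) (ω : Om n) (T : Finset (Fin n)) (c : Fin n → ℕ), 2 ≤ r → r ≤ n →
    (∀ K : Finset (Fin n), K.card = r - 1 → ∃ w, w ∉ K ∧ ∀ u ∈ K, adj ω w u) →
    (∀ v ∈ away ω T \ T, c v < q) →
    (∀ K ∈ hyp ω r (away ω T \ T) (univ \ (away ω T ∪ T)) ∪ hyp ω (r + 1) (away ω T \ T) ∅,
      ∃ u ∈ K, ∃ v ∈ K, c u ≠ c v) →
    colorable ω (T.card + (away ω T ∩ T).card + q)

/-- Task LowDet (deterministic). Let `c` be a clique colouring with `t` colours, `S_i` its classes.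
Claim: for every class `S` there is a vertex `v` with `|S \ N(v)| < s0`. (Then
`{u | ∀ i, ¬ adj (v_i) u} ⊆ ⋃ (S_i \ N(v_i))` contradicts the last hypothesis; if `t > 0` and `n = 0`
or a class is empty take any vertex; `n = 0` contradicts the last hypothesis directly.)
Suppose `|S \ N(v)| ≥ s0` for all `v`. Start with `S' ⊆ S`, `|S'| = s0`; as long as there is `v`
with `2 r |S' \ N(v)| < s0` add to `S'` a set of `s0` elements of `S \ N(v)`. The `v`'s used are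
distinct (after the step `|S' \ N(v)| ≥ s0`) and `2 r |S'_0 \ N(v)| < s0` for each of them, so after
`r` steps they would have more than `s0/2` common neighbours in `S'_0`, against (a). Hence it stops
with `|S'| ≤ r s0` and `|S'| ≤ r s0 ≤ 2 r^2 |S' \ N(v)|` for all `v`. By (b) there is a clique
`K ⊆ S'` with `r` elements without common neighbour outside `S'`. Take a maximal clique `K'` among
the cliques contained in `S` and containing `K`: it is a maximal clique of the graph (a vertex `w`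
adjacent to all of `K'` would be in `S` and contradict maximality, or outside `S`, hence outside
`S'`), it is monochromatic: contradiction. -/
def TaskLowDet : Prop :=
  ∀ (n r s0 t : ℕ) (ω : Om n), 2 ≤ r → 1 ≤ s0 →
    (∀ R : Finset (Fin n), R.card = r → 2 * (cn ω R).card < s0) →
    (∀ S : Finset (Fin n), s0 ≤ S.card → S.card ≤ r * s0 →
      (∀ v, v ∉ S → S.card ≤ 2 * r ^ 2 * (S \ nb ω v S).card) →
      ∃ K ⊆ S, K.card = r ∧ cl ω K ∧ ∀ w, w ∉ S → ∃ u ∈ K, ¬ adj ω w u) →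
    (∀ v : Fin t → Fin n, t * s0 < (univ.filter (fun u => ∀ i, ¬ adj ω (v i) u)).card) →
    ¬ colorable ω t

/-- the event that the set `S` is bad (it satisfies the conclusion of the structure theory of a
colour class but contains no `r`-clique without common neighbour outside `S`) -/
def BadS {n : ℕ} (r : ℕ) (κ : ℝ) (S : Finset (Fin n)) (ω : Om n) : Prop :=
  (∀ R : Finset (Fin n), R.card = r → ((cn ω R).card : ℝ) ≤ κ * S.card) ∧
  (∀ v, v ∉ S → S.card ≤ 2 * r ^ 2 * (S \ nb ω v S).card) ∧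
  ¬ ∃ K ⊆ S, K.card = r ∧ cl ω K ∧ ∀ w, w ∉ S → ∃ u ∈ K, ¬ adj ω w u

/-- Statement UpR (analysis, from TaskMom). `|R| ≤ n^(-β) e^(ls) / p`, `Q = ⌈n^(-β/2) / p⌉`,
`ρ = n^(-β/4)`. With `m = |R|`, `x = n^(-β)/p ≥ 1`: since `ls ≤ (r/2) log(1/p) + n p^r/(r-1)`,
`e^(-|V2| p^r) m^(r-i) p^(choose r 2 - choose i 2) ≤ 2 x^(r-i) ≤ 2 x^(r-1)` for `1 ≤ i ≤ r`
(`choose r 2 - choose i 2 = (r-i)(r+i-1)/2`; `e^(-|V2| p^r) ≤ 2 e^(-n p^r)` as
`n^(1-β) p^r ≤ C n^(-β) log n → 0`), and for `r+1` and `V2 = ∅`: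
`m^(r+1-i) p^(choose (r+1) 2 - choose i 2) ≤ (2 x)^(r+1-i)` from
`ls ≤ ((r+1)/2) log(1/p) + n p^(r+1)/r`, `n p^(r+1) ≤ C p log n → 0`. So
`E X^k ≤ C' x^((r-1)k)` resp. `C' x^(r k)`; Markov with a large fixed `k` (such as `k ≥ 16/β + 1`)
and a union bound over `v ∈ R`. -/
def TaskUpR : Prop :=
  ∀ (ε β C : ℝ) (r : ℕ), 0 < ε → 0 < β → β ≤ ε → 0 < C → 2 ≤ r → ∃ n0 : ℕ, ∀ n : ℕ, n0 ≤ n →
    ∀ p : ℝ, rng ε n p → n * p ^ r ≤ C * Real.log n →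
    ∀ R V2 : Finset (Fin n), Disjoint R V2 →
      (R.card : ℝ) ≤ (n : ℝ) ^ (-β) * Real.exp (ls n p) / p →
      (n : ℝ) - (n : ℝ) ^ (1 - β) ≤ V2.card →
      Pb p (fun ω : Om n => ∃ v ∈ R, (n : ℝ) ^ (-β / 4) <
          ((hyp ω r R V2).filter (fun K => v ∈ K)).card *
              (1 / (⌈(n : ℝ) ^ (-β / 2) / p⌉₊ : ℝ)) ^ (r - 1) +
          ((hyp ω (r + 1) R ∅).filter (fun K => v ∈ K)).card *
              (1 / (⌈(n : ℝ) ^ (-β / 2) / p⌉₊ : ℝ)) ^ r)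
        ≤ 1 / n

/-- Task UpRNum -/
def TaskUpRNum : Prop := TaskMom → TaskUpR

/-- Task Choose (real analysis): the choice of `r` for the lower bound and bounds on `ls`.
Write `ℓ = log n`, `L = log (1/p)`, `F r = (r/2) L + n p^r/(r-1)`; the range gives
`ε ℓ ≤ L ≤ (1/3 - ε) ℓ`. The infimum `ls` is attained for some `r ≤ 2/ε + 3` (`F r → ∞`, and
`F r ≥ (r/2) L`, `F ⌈1/x⌉ ≤ (1+x)/2 ℓ + 1`, `x = L/ℓ`). Let `r0` attain it. `F r0 ≤ F (r0+1)` gives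
`n p^r0 (1/(r0-1) - p/r0) ≤ L/2`. If `n p^r0 ≤ (r0-1)/2 L - γ ℓ` take `r = r0`, otherwise
`r = r0+1`: then `n p^(r0+1) ≤ p (r0-1) ℓ` is tiny and `F (r0+1) ≤ F r0 + γ ℓ/(r0-1) + 1`.
`3 ≤ r` since `n p^2 ≥ n^(1/3)`. Upper bound for `ls`: `1 - x - (1+x)/2 = 1/2 - 3x/2 ≥ 3ε/2`. -/
def TaskChoose : Prop :=
  ∀ (ε γ : ℝ), 0 < ε → 0 < γ → γ ≤ ε / 4 → ∃ n0 : ℕ, ∀ n : ℕ, n0 ≤ n → ∀ p : ℝ, rng ε n p →
    (∃ r : ℕ, 3 ≤ r ∧ (r : ℝ) ≤ 2 / ε + 4 ∧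
      n * p ^ r ≤ ((r : ℝ) - 1) / 2 * Real.log (1 / p) - γ * Real.log n ∧
      (r : ℝ) / 2 * Real.log (1 / p) + n * p ^ r / ((r : ℝ) - 1) ≤ ls n p + 2 * γ * Real.log n) ∧
    ε * Real.log n ≤ Real.log (n * p) - ls n p ∧
    Real.log (1 / p) ≤ ls n p ∧ ls n p ≤ Real.log n

/-- the size `s0` of the sets in the lower bound -/
noncomputable def sz (n r : ℕ) (p ζ : ℝ) : ℕ :=
  ⌈p ^ (-(r : ℝ) / 2) * Real.exp (n * p ^ r / ((r : ℝ) - 1)) * (n : ℝ) ^ ζ⌉₊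

/-- Statement LowR: `whp` there is no bad set. -/
def TaskLowR : Prop :=
  ∀ (ε γ ζ : ℝ) (r : ℕ), 0 < ε → 0 < γ → 0 < ζ → ζ ≤ γ / 4 → 3 ≤ r →
    ∃ κ : ℝ, 0 < κ ∧ ∃ n0 : ℕ, ∀ n : ℕ, n0 ≤ n → ∀ p : ℝ, rng ε n p →
      n * p ^ r ≤ ((r : ℝ) - 1) / 2 * Real.log (1 / p) - γ * Real.log n →
      Pb p (fun ω : Om n => ∃ S : Finset (Fin n), sz n r p ζ ≤ S.card ∧
        S.card ≤ r * sz n r p ζ ∧ BadS r κ S ω) ≤ 1 / n

/-- Statement BadPb (probability that a fixed set `S` is bad; no asymptotics). `F0` is a lower bound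
for the number of `r`-sets not covered by the `N v`. -/
def BadPb : Prop :=
  ∀ (n r τ Y : ℕ) (p κ F0 b m lam Λ : ℝ) (S : Finset (Fin n)), 0 < p → p ≤ 1 → 2 ≤ r →
    (∀ (M : Finset (Fin n)) (N : Fin n → Finset (Fin n)), (∀ v ∈ M, N v ⊆ S) →
      (∀ v ∈ M, S.card ≤ 2 * r ^ 2 * (S \ N v).card) → ∑ v ∈ M, (N v).card ≤ Y →
      (∀ R ⊆ M, R.card = r → ((S.filter (fun u => ∀ v ∈ R, u ∈ N v)).card : ℝ) ≤ κ * S.card) →
      F0 ≤ (((powersetCard r S).filter (fun K => ∀ v ∈ M, ¬ K ⊆ N v)).card : ℝ)) →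
    0 < b → b < 1 → 0 < m → m ≤ F0 → 0 ≤ lam → (τ : ℝ) ^ r ≤ b * m → 0 < Λ →
    (∀ j : ℕ, 2 ≤ j → j ≤ r → Λ * 2 ^ r * (S.card : ℝ) ^ (r - j) ≤ m * p ^ (j.choose 2)) →
    Pb p (fun ω : Om n => BadS r κ S ω)
      ≤ Pb p (fun ω : Om n => Y ≤ ∑ v ∈ (univ \ S).filter (fun v => τ ≤ (nb ω v S).card),
            (nb ω v S).card)
        + ((n : ℝ) * S.card + 1) ^ Y *
            ((m / F0) ^ lam * Real.exp (n * p ^ r * (((1 - b) ^ (-lam) - 1) / b)))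
        + Real.exp (- Λ / 2)

/-- Task BadPb. Suppose `BadS r κ S ω` and not the Deg event. `M = {v ∉ S | τ ≤ d_v}`, `N v = nb ω v S`
(`∑_{v ∈ M} d_v < Y`; `{u ∈ S | ∀ v ∈ R, u ∈ N v} ⊆ cn ω R`), so `𝓣 = {K ∈ powersetCard r S | K ⊄ N v for
v ∈ M}` has at least `F0` elements. `𝓡(ω) = {K ∈ powersetCard r S | ∀ w ∉ S, ¬ K ⊆ nb ω w S}`
`= {K ∈ 𝓣 | ∀ v ∉ S, d_v < τ → ¬ K ⊆ nb ω v S}`. First case `|𝓡| ≤ m`: union bound (TaskProc) over the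
sets `G ⊆ (univ \ S) ×ˢ S` with fewer than `Y` elements (at most `(n |S| + 1)^Y`), where
`𝓕_G = {K ∈ powersetCard r S | ∀ v ∉ S, ¬ K ⊆ {u | (v,u) ∈ G}}` has at least `F0` elements (other `G`
are not used; `r ≥ 1`). Second case `m < |𝓡|`: no `K ∈ 𝓡` is a clique (third part of `BadS`); `𝓡(ω)`
depends only on the pairs not inside `S`: `Pb_le_of_mix` with `D = prs S S`, then TaskJan for the
fixed family `𝓡(ω')`. -/
def TaskBadPb : Prop := TaskProc → TaskJan → BadPb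

/-- Task LowRNum (choice of the parameters). `A = n p^r`, `L = log(1/p)`, `ℓ = log n`; `η > 0` small
with `r η ≤ min (1/2) (γ/2)`; `τ = ⌈|S| p^(1-η)⌉`, `θ = p^(-η/2)`, `C = 16/(ε η)`, `Y = ⌊C |S|⌋₊`
(so `θ^Y ≥ n^(4|S|)` or so; the Deg condition `e |S| p θ ≤ τ/2` holds as `p^(-η/2) ≥ 2 e`; `τ ≥ n^(ε/2)`),
`c, κ, s0` from TaskComb with `C` and `δ = 1/(2 r^2)`, `ζ' = ζ/2`, `F0 = c |S|^r`,
`m = c |S|^r e^(-A) n^(-ζ')`, `b = (2^r / c) p^(r(1-η)) e^A n^ζ'` (or anything `≥ τ^r / m`; `b → 0`: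
`e^A ≤ p^(-(r-1)/2) n^(-γ)`), `lam = κ'/b` with `κ' = ζ'/(12 r)`; exponent
`(1/b)(-κ' A - κ' ζ' ℓ + A (exp(κ'(1+b)) - 1)) ≤ - κ' ζ' ℓ / (2 b)` as `(1-b)^(-1) ≤ exp(b + b^2)`,
`A ≤ r ℓ`. `(1/b)/|S| ≥ c'' p^(-r/2 + r η) e^(-A r/(r-1)) n^(-ζ'-ζ) ≥ c'' p^(r η) n^(γ - ζ' - ζ) ≥ n^(γ/8)`
(`|S| ≤ r sz ≤ 2 r p^(-r/2) e^(A/(r-1)) n^ζ`, `e^(-A r/(r-1)) ≥ p^(r/2) n^γ`). `Λ = |S| n^(ζ/4)`:
`m p^(choose j 2) / |S|^(r-j) = c |S| (|S| p^(j/2))^(j-1) e^(-A) n^(-ζ') ≥ c |S| n^(ζ - ζ')` since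
`|S| ≥ p^(-r/2) e^(A/(r-1)) n^ζ` and `e^(-A/(r-1)) ≥ p^(1/2)`. Everything is `≤ n^(-3|S|)`; union over
`S`: `∑_s n^s n^(-3s) ≤ 1/n`. -/
def TaskLowRNum : Prop := TaskDeg → TaskComb → BadPb → TaskLowR

/-- the main statement, upper bound -/
def MainUp : Prop :=
  ∀ (ε δ : ℝ), 0 < ε → 0 < δ → ∃ n0 : ℕ, ∀ n : ℕ, n0 ≤ n → ∀ p : ℝ, rng ε n p →
    Pb p (fun ω : Om n => ¬ colorable ω ⌊(1 + δ) * fv n p⌋₊) ≤ δ

/-- the main statement, lower bound -/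
def MainLow : Prop :=
  ∀ (ε δ : ℝ), 0 < ε → 0 < δ → δ < 1 → ∃ n0 : ℕ, ∀ n : ℕ, n0 ≤ n → ∀ p : ℝ, rng ε n p →
    Pb p (fun ω : Om n => colorable ω ⌊(1 - δ) * fv n p⌋₊) ≤ δ

/-- Task TopLow: the final assembly of the lower bound. `t = ⌊(1-δ) fv⌋`, `γ = ε δ/16`, `ζ = γ/4`,
`r` from TaskChoose (finitely many values: take the maximum of the `n0`, minimum of the `κ` over
`r ≤ 2/ε + 4`), events: TaskCN with `k = ⌈(log n)^2⌉` (so that `k ≤ κ s0` and `2k < s0`, as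
`s0 ≥ p^(-r/2)`), TaskLowR, TaskChern with `y = n (1-p)^t / 8`; `t s0 < y` since
`n (1-p)^t ≥ (e^ls / p) n^(ε δ/2)` (from `(1-p)^t ≥ exp(-(p + p^2) t)`) and
`s0 ≤ 2 e^(ls + 2 γ ℓ) n^ζ`, `t ≤ ℓ / p`. -/
def TaskTopLow : Prop :=
  TaskCN → TaskChern → TaskLowDet → TaskChoose → TaskLowR → MainLow

/-- Statement UpPb (probability part of the upper bound, no asymptotics). -/
def UpPb : Prop :=
  ∀ (n r a j Q : ℕ) (p ρ m1 q : ℝ) (T : Finset (Fin n)), 0 ≤ p → p ≤ 1 → 2 ≤ r → r ≤ n → 1 ≤ Q →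
    0 ≤ ρ → 0 ≤ q → ρ ^ j * m1 < 1 →
    (∀ R V2 : Finset (Fin n), Disjoint R V2 → (R.card : ℝ) ≤ m1 →
      (n : ℝ) - m1 - T.card ≤ V2.card →
      Pb p (fun ω : Om n => ∃ v ∈ R, ρ <
          ((hyp ω r R V2).filter (fun K => v ∈ K)).card * (1 / (Q : ℝ)) ^ (r - 1) +
          ((hyp ω (r + 1) R ∅).filter (fun K => v ∈ K)).card * (1 / (Q : ℝ)) ^ r) ≤ q) →
    Pb p (fun ω : Om n => ¬ colorable ω (T.card + a + j * Q))
      ≤ Pb p (fun ω : Om n => m1 < ((away ω T).card : ℝ))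
        + Pb p (fun ω : Om n => a < (away ω T ∩ T).card)
        + Pb p (fun ω : Om n => ∃ K : Finset (Fin n), K.card = r - 1 ∧
            ∀ w, w ∉ K → ∃ u ∈ K, ¬ adj ω w u)
        + q

/-- Task UpPb: `R = away ω T \ T`, `V2 = univ \ (away ω T ∪ T)`. The fourth bad event: `|away ω T| ≤ m1`
and for some `v ∈ R` the weighted degree is `> ρ`; condition on the pairs that meet `T` (`Pb_le_of_mix`
with `D` = the pairs not meeting `T`; `away (mix D ω ω') T = away ω' T`,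
`hyp (mix D ω ω') _ R V2 = hyp ω _ R V2` when `R`, `V2` are disjoint from `T`). Outside the bad events:
TaskCol for `𝓗 = hyp ω r R V2 ∪ hyp ω (r+1) R ∅`, then TaskUpDet with `q = j Q` (and `colorable` is
monotone in the number of colours). -/
def TaskUpPb : Prop := TaskCol → TaskUpDet → UpPb

/-- Task TopUp: the final assembly of the upper bound (numerics). `R0 = ⌈1/ε⌉ + 2`, `C = R0 + 2`,
`r` = the least `j ≥ 2` with `n p^j ≤ C log n` (`3 ≤ r ≤ R0`; finitely many `r`, take the maximum of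
the `n0` of TaskUpR), `T` a set of `t = ⌈(1+δ/2) fv⌉₊` vertices, `β = min (ε δ/8) (ε/2)`, `m1 = n^(-β) e^ls / p`
(`≤ n^(1-β-ε)` by TaskChoose, so `m1 + t ≤ n^(1-β)`), `a = ⌊(δ/8) fv⌋₊`,
`Q = ⌈n^(-β/2)/p⌉₊`, `ρ = n^(-β/4)`, `j = ⌈4/β⌉₊+1`, `q = 1/n`. First two terms: TaskFirst and Markov,
`n (1-p)^(t-1) ≤ e (e^ls/p) n^(-ε δ/2)`; `t (1-p)^(t-1) ≤ 3 t n^(-ε)`. Third: TaskNoCN,
`n p^(r-1) > C log n`. `t + a + j Q ≤ ⌊(1+δ) fv⌋₊` as `fv ≥ ε log n / p`; `colorable` is monotone. -/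
def TaskTopUp : Prop :=
  TaskFirst → TaskNoCN → UpPb → TaskChoose → TaskUpR → MainUp

end Pool.Agent.L5helper98.CQ
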